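import Mathlib

set_option autoImplicit false

open Finset Polynomial

namespace Pool.Agent.Results.MP_dfec22_gt.AllButExpFew

/-- For `N = {n_1 < ... < n_k}` with `n_k = n`: the polynomial `T ^ n * Δ(T)`, where
`Δ(T) = (-1)^k + ∑ j, (-1)^(k - j) (T^(n_j) + T^(-n_j))`. -/
noncomputable def poly (n : ℕ) (N : Finset ℕ) : ℂ[X] :=
  C ((-1 : ℂ) ^ N.card) * X ^ n +
    ∑ j ∈ N, C ((-1 : ℂ) ^ (N.filter (fun m => j < m)).card) * (X ^ (n + j) + X ^ (n - j))

/-- `Δ` has a simple root on the unit circle. -/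
def HasSimpleUnitRoot (n : ℕ) (N : Finset ℕ) : Prop :=
  ∃ ζ : ℂ, ‖ζ‖ = 1 ∧ (poly n N).rootMultiplicity ζ = 1

/-- `1` if an odd number of elements of `N` are larger than `s`, otherwise `0`. -/
noncomputable def del (N : Finset ℕ) (s : ℕ) : ℝ :=
  if Odd (N.filter (fun m => s < m)).card then 1 else 0

theorem alt_sum (M : Finset ℕ) :
    ∑ j ∈ M, (-1 : ℝ) ^ (M.filter (fun m => j < m)).card = if Odd M.card then 1 else 0 := by
  classical
  induction M using Finset.induction_on_min with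
  | empty => simp
  | insert a s ha ih =>
    have has : a ∉ s := fun h => lt_irrefl _ (ha a h)
    rw [Finset.sum_insert has, Finset.card_insert_of_notMem has]
    have h1 : (insert a s).filter (fun m => a < m) = s := by
      ext x
      simp only [mem_filter, mem_insert]
      constructor
      · rintro ⟨h | h, h2⟩
        · omega
        · exact h
      · intro h; exact ⟨Or.inr h, ha x h⟩
    have h2 : ∀ j ∈ s, (insert a s).filter (fun m => j < m) = s.filter (fun m => j < m) := by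
      intro j hj
      ext x
      simp only [mem_filter, mem_insert]
      constructor
      · rintro ⟨h | h, h2⟩
        · have := ha j hj; omega
        · exact ⟨h, h2⟩
      · rintro ⟨h, h2⟩; exact ⟨Or.inr h, h2⟩
    rw [h1, Finset.sum_congr rfl (fun j hj => by rw [h2 j hj]), ih]
    rcases Nat.even_or_odd s.card with he | ho
    · have h3 : ¬ Odd s.card := Nat.not_odd_iff_even.2 he
      have h4 : Odd (s.card + 1) := he.add_one
      simp [h3, h4, he.neg_one_pow]
    · have h4 : ¬ Odd (s.card + 1) := Nat.not_odd_iff_even.2 ho.add_one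
      simp [ho, h4, ho.neg_one_pow]

theorem alt_sum_gt (N : Finset ℕ) (s : ℕ) :
    ∑ j ∈ N.filter (fun m => s < m), (-1 : ℝ) ^ (N.filter (fun m => j < m)).card = del N s := by
  classical
  rw [del, ← alt_sum]
  apply Finset.sum_congr rfl
  intro j hj
  congr 2
  ext x
  simp only [mem_filter] at hj ⊢
  constructor
  · rintro ⟨h1, h2⟩; exact ⟨⟨h1, by omega⟩, h2⟩
  · rintro ⟨⟨h1, _⟩, h2⟩; exact ⟨h1, h2⟩

theorem abel (n : ℕ) (N : Finset ℕ) (hN : N ⊆ Icc 1 n) (f : ℕ → ℝ) :
    ∑ j ∈ N, (-1 : ℝ) ^ (N.filter (fun m => j < m)).card * (f j - f 0) =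
      ∑ s ∈ range n, del N s * (f (s + 1) - f s) := by
  classical
  have h1 : ∀ j ∈ N, f j - f 0 = ∑ s ∈ range n, if s < j then f (s + 1) - f s else 0 := by
    intro j hj
    have hjn : j ≤ n := (Finset.mem_Icc.1 (hN hj)).2
    rw [← Finset.sum_filter]
    have : (range n).filter (fun s => s < j) = range j := by
      ext x; simp only [mem_filter, mem_range]; omega
    rw [this, Finset.sum_range_sub]
  rw [Finset.sum_congr rfl (fun j hj => by rw [h1 j hj])]
  simp only [Finset.mul_sum]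
  rw [Finset.sum_comm]
  apply Finset.sum_congr rfl
  intro s _
  rw [← alt_sum_gt N s, Finset.sum_filter, Finset.sum_mul]
  apply Finset.sum_congr rfl
  intro j _
  by_cases h : s < j <;> simp [h]

/-- The function `θ ↦ Δ(exp (i θ))`. -/
noncomputable def D (n : ℕ) (N : Finset ℕ) (θ : ℝ) : ℝ :=
  1 - 2 * ∑ s ∈ range n, del N s * (Real.cos (s * θ) - Real.cos ((s + 1 : ℕ) * θ))

theorem D_eq (n : ℕ) (N : Finset ℕ) (hN : N ⊆ Icc 1 n) (θ : ℝ) :
    D n N θ = (-1) ^ N.card +
      ∑ j ∈ N, (-1 : ℝ) ^ (N.filter (fun m => j < m)).card * (2 * Real.cos (j * θ)) := by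
  have h := abel n N hN (fun j => Real.cos (j * θ))
  have h2 := alt_sum N
  simp only [Nat.cast_zero, zero_mul, Real.cos_zero] at h
  have h3 : (-1 : ℝ) ^ N.card + 2 * (∑ j ∈ N, (-1 : ℝ) ^ (N.filter (fun m => j < m)).card) = 1 := by
    rw [h2]
    rcases Nat.even_or_odd N.card with he | ho
    · have : ¬ Odd N.card := Nat.not_odd_iff_even.2 he
      simp [this, he.neg_one_pow]
    · simp only [ho, if_true, ho.neg_one_pow]; norm_num
  have h4 : ∑ s ∈ range n, del N s * (Real.cos (s * θ) - Real.cos ((s + 1 : ℕ) * θ)) =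
      - ∑ j ∈ N, (-1 : ℝ) ^ (N.filter (fun m => j < m)).card * (Real.cos (j * θ) - 1) := by
    rw [h, ← Finset.sum_neg_distrib]
    apply Finset.sum_congr rfl
    intro s _; ring
  rw [D, h4]
  have h5 : ∑ j ∈ N, (-1 : ℝ) ^ (N.filter (fun m => j < m)).card * (2 * Real.cos (j * θ)) =
      2 * ∑ j ∈ N, (-1 : ℝ) ^ (N.filter (fun m => j < m)).card * (Real.cos (j * θ) - 1) +
      2 * (∑ j ∈ N, (-1 : ℝ) ^ (N.filter (fun m => j < m)).card) := by
    rw [← mul_add, ← Finset.sum_add_distrib, Finset.mul_sum]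
    apply Finset.sum_congr rfl
    intro s _; ring
  rw [h5]
  linarith

theorem poly_eval (n : ℕ) (N : Finset ℕ) (hN : N ⊆ Icc 1 n) (θ : ℝ) :
    (poly n N).eval (Complex.exp (θ * Complex.I)) =
      Complex.exp (n * (θ * Complex.I)) * (D n N θ : ℂ) := by
  rw [D_eq n N hN θ]
  simp only [poly, eval_add, eval_mul, eval_C, eval_pow, eval_X, eval_finsetSum]
  push_cast
  rw [mul_add, Finset.mul_sum, ← Complex.exp_nat_mul]
  congr 1
  · ring
  · apply Finset.sum_congr rfl
    intro j hj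
    have hjn : j ≤ n := (Finset.mem_Icc.1 (hN hj)).2
    rw [← Complex.exp_nat_mul, ← Complex.exp_nat_mul, Complex.two_cos]
    have e1 : Complex.exp (((n + j : ℕ) : ℂ) * (θ * Complex.I)) =
        Complex.exp (n * (θ * Complex.I)) * Complex.exp (j * θ * Complex.I) := by
      rw [← Complex.exp_add]; congr 1; push_cast; ring
    have e2 : Complex.exp (((n - j : ℕ) : ℂ) * (θ * Complex.I)) =
        Complex.exp (n * (θ * Complex.I)) * Complex.exp (-(j * θ) * Complex.I) := by
      rw [← Complex.exp_add]; congr 1; push_cast [hjn]; ring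
    rw [e1, e2]
    ring


theorem ysin_mono : StrictMonoOn (fun y : ℝ => y * Real.sin y) (Set.Icc 0 2) := by
  apply strictMonoOn_of_deriv_pos (convex_Icc 0 2)
  · fun_prop
  · intro y hy
    rw [interior_Icc] at hy
    obtain ⟨h0, h2⟩ := hy
    have hd : HasDerivAt (fun y : ℝ => y * Real.sin y) (1 * Real.sin y + y * Real.cos y) y :=
      (hasDerivAt_id y).mul (Real.hasDerivAt_sin y)
    rw [hd.deriv]
    have hpi : 3.1415 < Real.pi := by have := Real.pi_gt_d4; linarith
    by_cases hy : y ≤ Real.pi / 2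
    · have h3 : 0 < Real.sin y := Real.sin_pos_of_pos_of_lt_pi h0 (by linarith)
      have h4 : 0 ≤ Real.cos y := Real.cos_nonneg_of_mem_Icc ⟨by linarith, hy⟩
      have := mul_nonneg h0.le h4
      linarith
    · push Not at hy
      set t := y - Real.pi / 2 with ht
      have ht0 : 0 < t := by linarith
      have ht1 : t < 0.42925 := by rw [ht]; linarith
      have e1 : Real.sin y = Real.cos t := by
        rw [ht, Real.cos_sub_pi_div_two]
      have e2 : Real.cos y = - Real.sin t := by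
        rw [ht, Real.sin_sub_pi_div_two]; ring
      have h3 : 1 - t ^ 2 / 2 ≤ Real.cos t := Real.one_sub_sq_div_two_le_cos
      have h4 : Real.sin t < t := Real.sin_lt ht0
      have h5 : 0 < Real.sin t := Real.sin_pos_of_pos_of_lt_pi ht0 (by linarith)
      rw [e1, e2]
      have h6 : y * Real.sin t ≤ 2 * t := by nlinarith
      nlinarith

theorem D_hasDerivAt (n : ℕ) (N : Finset ℕ) (θ : ℝ) :
    HasDerivAt (D n N) (-2 * ∑ s ∈ range n, del N s *
      (((s + 1 : ℕ) : ℝ) * Real.sin (((s + 1 : ℕ) : ℝ) * θ) - s * Real.sin (s * θ))) θ := by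
  have h : ∀ s : ℕ, HasDerivAt (fun θ : ℝ => Real.cos (s * θ)) (- Real.sin (s * θ) * (s : ℝ)) θ := by
    intro s
    have h1 : HasDerivAt (fun θ : ℝ => (s : ℝ) * θ) (s : ℝ) θ := by
      simpa using (hasDerivAt_id θ).const_mul (s : ℝ)
    exact h1.cos
  have h2 : HasDerivAt (fun θ : ℝ => ∑ s ∈ range n, del N s *
      (Real.cos (s * θ) - Real.cos ((s + 1 : ℕ) * θ)))
      (∑ s ∈ range n, del N s * (- Real.sin (s * θ) * (s : ℝ) -
        - Real.sin (((s + 1 : ℕ) : ℝ) * θ) * ((s + 1 : ℕ) : ℝ))) θ := by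
    apply HasDerivAt.fun_sum
    intro s _
    exact ((h s).sub (h (s + 1))).const_mul (del N s)
  have h3 := (h2.const_mul 2).const_sub 1
  refine h3.congr_deriv ?_
  rw [← mul_neg, ← Finset.sum_neg_distrib, Finset.mul_sum, Finset.mul_sum]
  apply Finset.sum_congr rfl
  intro s _; ring

theorem del_nonneg (N : Finset ℕ) (s : ℕ) : 0 ≤ del N s := by
  unfold del; split_ifs <;> norm_num

theorem del_last (n : ℕ) (hn : 1 ≤ n) (N : Finset ℕ) (hN : N ⊆ Icc 1 n) (hnN : n ∈ N) :
    del N (n - 1) = 1 := by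
  have : N.filter (fun m => n - 1 < m) = {n} := by
    ext x
    simp only [mem_filter, mem_singleton]
    constructor
    · rintro ⟨h1, h2⟩
      have := Finset.mem_Icc.1 (hN h1); omega
    · rintro rfl; exact ⟨hnN, by omega⟩
  rw [del, this]; simp

theorem D_deriv_neg (n : ℕ) (hn : 1 ≤ n) (N : Finset ℕ) (hN : N ⊆ Icc 1 n) (hnN : n ∈ N) (θ : ℝ)
    (h0 : 0 < θ) (h1 : n * θ ≤ 2) :
    -2 * ∑ s ∈ range n, del N s *
      (((s + 1 : ℕ) : ℝ) * Real.sin (((s + 1 : ℕ) : ℝ) * θ) - s * Real.sin (s * θ)) < 0 := by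
  have key : ∀ s ∈ range n, 0 < ((s + 1 : ℕ) : ℝ) * Real.sin (((s + 1 : ℕ) : ℝ) * θ) -
      s * Real.sin (s * θ) := by
    intro s hs
    have hs1 : ((s + 1 : ℕ) : ℝ) ≤ n := by exact_mod_cast Finset.mem_range.1 hs
    have a1 : ((s + 1 : ℕ) : ℝ) * θ ≤ 2 := le_trans (mul_le_mul_of_nonneg_right hs1 h0.le) h1
    have a2 : (s : ℝ) * θ < ((s + 1 : ℕ) : ℝ) * θ := by
      apply mul_lt_mul_of_pos_right _ h0
      push_cast; linarith
    have a3 : 0 ≤ (s : ℝ) * θ := by positivity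
    have := ysin_mono ⟨a3, by linarith⟩ ⟨by linarith, a1⟩ a2
    simp only at this
    have e1 : (s : ℝ) * θ * Real.sin (s * θ) = θ * (s * Real.sin (s * θ)) := by ring
    have e2 : ((s + 1 : ℕ) : ℝ) * θ * Real.sin (((s + 1 : ℕ) : ℝ) * θ) =
        θ * (((s + 1 : ℕ) : ℝ) * Real.sin (((s + 1 : ℕ) : ℝ) * θ)) := by ring
    rw [e1, e2] at this
    have := lt_of_mul_lt_mul_left this h0.le
    linarith
  have : 0 < ∑ s ∈ range n, del N s *
      (((s + 1 : ℕ) : ℝ) * Real.sin (((s + 1 : ℕ) : ℝ) * θ) - s * Real.sin (s * θ)) := by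
    apply Finset.sum_pos'
    · intro s hs
      exact mul_nonneg (del_nonneg N s) (key s hs).le
    · refine ⟨n - 1, Finset.mem_range.2 (by omega), ?_⟩
      rw [del_last n hn N hN hnN, one_mul]
      exact key (n - 1) (Finset.mem_range.2 (by omega))
  linarith

theorem simple_of_zero (n : ℕ) (hn : 1 ≤ n) (N : Finset ℕ) (hN : N ⊆ Icc 1 n) (hnN : n ∈ N)
    (θ : ℝ) (h0 : 0 < θ) (h1 : n * θ ≤ 2) (hD : D n N θ = 0) : HasSimpleUnitRoot n N := by
  set ζ : ℂ := Complex.exp (θ * Complex.I) with hζ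
  set d : ℝ := -2 * ∑ s ∈ range n, del N s *
      (((s + 1 : ℕ) : ℝ) * Real.sin (((s + 1 : ℕ) : ℝ) * θ) - s * Real.sin (s * θ)) with hd
  have hdneg : d < 0 := D_deriv_neg n hn N hN hnN θ h0 h1
  have hder : HasDerivAt (D n N) d θ := D_hasDerivAt n N θ
  -- derivative of both sides of `poly_eval`
  have hE : HasDerivAt (fun t : ℝ => Complex.exp (t * Complex.I)) (ζ * Complex.I) θ := by
    have h2 : HasDerivAt (fun t : ℝ => (t : ℂ) * Complex.I) (Complex.I) θ := by
      simpa using (Complex.ofRealCLM.hasDerivAt (x := θ)).mul_const Complex.I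
    exact h2.cexp
  have hL : HasDerivAt (fun t : ℝ => (poly n N).eval (Complex.exp (t * Complex.I)))
      ((poly n N).derivative.eval ζ * (ζ * Complex.I)) θ := by
    have h2 : HasDerivAt (fun z : ℂ => (poly n N).eval z) ((poly n N).derivative.eval ζ) ζ :=
      (poly n N).hasDerivAt ζ
    exact HasDerivAt.comp_of_eq θ h2 hE hζ.symm
  have hR : HasDerivAt (fun t : ℝ => Complex.exp (n * (t * Complex.I)) * (D n N t : ℂ))
      (Complex.exp (n * (θ * Complex.I)) * (n * Complex.I) * (D n N θ : ℂ) +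
        Complex.exp (n * (θ * Complex.I)) * (d : ℂ)) θ := by
    have h2 : HasDerivAt (fun t : ℝ => (n : ℂ) * ((t : ℂ) * Complex.I)) (n * Complex.I) θ := by
      have : HasDerivAt (fun t : ℝ => (t : ℂ) * Complex.I) (Complex.I) θ := by
        simpa using (Complex.ofRealCLM.hasDerivAt (x := θ)).mul_const Complex.I
      exact this.const_mul (n : ℂ)
    exact h2.cexp.mul hder.ofReal_comp
  have hfun : (fun t : ℝ => (poly n N).eval (Complex.exp (t * Complex.I))) =
      (fun t : ℝ => Complex.exp (n * (t * Complex.I)) * (D n N t : ℂ)) := by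
    funext t; exact poly_eval n N hN t
  rw [hfun] at hL
  have heq := hL.unique hR
  rw [hD, Complex.ofReal_zero, mul_zero, zero_add] at heq
  have hne : (poly n N).derivative.eval ζ ≠ 0 := by
    intro h
    rw [h, zero_mul] at heq
    have : Complex.exp (n * (θ * Complex.I)) * (d : ℂ) ≠ 0 :=
      mul_ne_zero (Complex.exp_ne_zero _) (by exact_mod_cast hdneg.ne)
    exact this heq.symm
  have hz : (poly n N).IsRoot ζ := by
    rw [IsRoot.def, hζ, poly_eval n N hN θ, hD]; simp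
  have hp : poly n N ≠ 0 := by
    intro h; rw [h] at hne; simp at hne
  refine ⟨ζ, ?_, ?_⟩
  · rw [hζ]; exact Complex.norm_exp_ofReal_mul_I θ
  · have h3 : 0 < (poly n N).rootMultiplicity ζ := (rootMultiplicity_pos hp).2 hz
    have h4 : ¬ 1 < (poly n N).rootMultiplicity ζ := by
      intro h
      exact hne ((one_lt_rootMultiplicity_iff_isRoot hp).1 h).2
    omega

theorem simple_of_nonpos (n : ℕ) (hn : 1 ≤ n) (N : Finset ℕ) (hN : N ⊆ Icc 1 n) (hnN : n ∈ N)
    (hD : D n N (2 / n) ≤ 0) : HasSimpleUnitRoot n N := by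
  have hn0 : (0 : ℝ) < n := by exact_mod_cast hn
  have h2 : (0 : ℝ) < 2 / n := by positivity
  have hc : Continuous (D n N) :=
    continuous_iff_continuousAt.2 fun θ => (D_hasDerivAt n N θ).continuousAt
  have h0 : D n N 0 = 1 := by simp [D]
  have hmem : (0 : ℝ) ∈ Set.Icc (D n N (2 / n)) (D n N 0) := ⟨hD, by rw [h0]; norm_num⟩
  obtain ⟨θ, ⟨ha, hb⟩, hθ⟩ := intermediate_value_Icc' h2.le hc.continuousOn hmem
  have hpos : 0 < θ := by
    rcases ha.eq_or_lt with h | h
    · rw [← h, h0] at hθ; norm_num at hθ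
    · exact h
  refine simple_of_zero n hn N hN hnN θ hpos ?_ hθ
  calc (n : ℝ) * θ ≤ n * (2 / n) := mul_le_mul_of_nonneg_left hb hn0.le
    _ = 2 := by field_simp


/-! ### Counting -/

theorem mgf (m : ℕ) (w : ℕ → ℝ) (l : ℝ) :
    ∑ H ∈ (range m).powerset, Real.exp (-l * (∑ s ∈ H, w s - (1 / 2) * ∑ s ∈ range m, w s)) =
      ∏ s ∈ range m, (Real.exp (-(l * w s / 2)) + Real.exp (l * w s / 2)) := by
  rw [Finset.prod_add]
  apply Finset.sum_congr rfl
  intro H hH
  rw [← Real.exp_sum, ← Real.exp_sum, ← Real.exp_add]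
  congr 1
  rw [← Finset.sum_sdiff (Finset.mem_powerset.1 hH)]
  have e1 : ∑ s ∈ H, -(l * w s / 2) = -(l / 2) * ∑ s ∈ H, w s := by
    rw [Finset.mul_sum]; apply Finset.sum_congr rfl; intro s _; ring
  have e2 : ∑ s ∈ range m \ H, l * w s / 2 = (l / 2) * ∑ s ∈ range m \ H, w s := by
    rw [Finset.mul_sum]; apply Finset.sum_congr rfl; intro s _; ring
  rw [e1, e2]
  ring

theorem mgf_le (m : ℕ) (w : ℕ → ℝ) (l b : ℝ) (hw : ∀ s ∈ range m, w s ^ 2 ≤ b) :
    ∑ H ∈ (range m).powerset, Real.exp (-l * (∑ s ∈ H, w s - (1 / 2) * ∑ s ∈ range m, w s)) ≤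
      2 ^ m * Real.exp (m * (l ^ 2 * b / 8)) := by
  rw [mgf]
  have h1 : ∀ s ∈ range m, Real.exp (-(l * w s / 2)) + Real.exp (l * w s / 2) ≤
      2 * Real.exp (l ^ 2 * b / 8) := by
    intro s hs
    have h2 := Real.cosh_le_exp_half_sq (l * w s / 2)
    rw [Real.cosh_eq] at h2
    have h3 : Real.exp ((l * w s / 2) ^ 2 / 2) ≤ Real.exp (l ^ 2 * b / 8) := by
      apply Real.exp_le_exp.2
      have := mul_le_mul_of_nonneg_left (hw s hs) (sq_nonneg l)
      nlinarith
    linarith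
  calc ∏ s ∈ range m, (Real.exp (-(l * w s / 2)) + Real.exp (l * w s / 2))
      ≤ ∏ _s ∈ range m, (2 * Real.exp (l ^ 2 * b / 8)) := by
        apply Finset.prod_le_prod
        · intro s _; positivity
        · exact h1
    _ = 2 ^ m * Real.exp (m * (l ^ 2 * b / 8)) := by
        rw [Finset.prod_const, card_range, mul_pow, ← Real.exp_nat_mul]

/-- the set of the `s < n - 1` with an odd number of larger elements of `N` -/
def Hs (n : ℕ) (N : Finset ℕ) : Finset ℕ :=
  (range (n - 1)).filter fun s => Odd (N.filter (fun m => s < m)).card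

theorem cnt_succ (N : Finset ℕ) (j : ℕ) (hj : 1 ≤ j) : (N.filter (fun m => j - 1 < m)).card =
    (N.filter (fun m => j < m)).card + if j ∈ N then 1 else 0 := by
  classical
  by_cases h : j ∈ N
  · have : N.filter (fun m => j - 1 < m) = insert j (N.filter (fun m => j < m)) := by
      ext x
      simp only [mem_filter, mem_insert]
      constructor
      · rintro ⟨h1, h2⟩
        by_cases hx : x = j
        · exact Or.inl hx
        · exact Or.inr ⟨h1, by omega⟩
      · rintro (h1 | ⟨h1, h2⟩)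
        · subst h1; exact ⟨h, by omega⟩
        · exact ⟨h1, by omega⟩
    rw [this, Finset.card_insert_of_notMem (by simp)]
    simp [h]
  · have : N.filter (fun m => j - 1 < m) = N.filter (fun m => j < m) := by
      ext x
      simp only [mem_filter]
      constructor
      · rintro ⟨h1, h2⟩
        have : x ≠ j := by rintro rfl; exact h h1
        exact ⟨h1, by omega⟩
      · rintro ⟨h1, h2⟩; exact ⟨h1, by omega⟩
    rw [this]; simp [h]

theorem cnt_last (n : ℕ) (hn : 1 ≤ n) (N : Finset ℕ) (hN : N ⊆ Icc 1 n) (hnN : n ∈ N) :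
    (N.filter (fun m => n - 1 < m)).card = 1 := by
  have : N.filter (fun m => n - 1 < m) = {n} := by
    ext x
    simp only [mem_filter, mem_singleton]
    constructor
    · rintro ⟨h1, h2⟩
      have := Finset.mem_Icc.1 (hN h1); omega
    · rintro rfl; exact ⟨hnN, by omega⟩
  rw [this]; simp

theorem Hs_inj (n : ℕ) (hn : 1 ≤ n) (N N' : Finset ℕ) (hN : N ⊆ Icc 1 n) (hnN : n ∈ N)
    (hN' : N' ⊆ Icc 1 n) (hnN' : n ∈ N') (h : Hs n N = Hs n N') : N = N' := by
  have hodd : ∀ s, s ≤ n - 1 → (Odd (N.filter (fun m => s < m)).card ↔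
      Odd (N'.filter (fun m => s < m)).card) := by
    intro s hs
    rcases hs.lt_or_eq with h1 | h1
    · have h2 : s ∈ Hs n N ↔ s ∈ Hs n N' := by rw [h]
      simpa [Hs, h1] using h2
    · rw [h1, cnt_last n hn N hN hnN, cnt_last n hn N' hN' hnN']
  have key : ∀ j, 1 ≤ j → j ≤ n - 1 → (j ∈ N ↔ j ∈ N') := by
    intro j h1 h2
    have a := hodd j h2
    have b := hodd (j - 1) (by omega)
    rw [cnt_succ N j h1, cnt_succ N' j h1] at b
    by_cases c1 : j ∈ N <;> by_cases c2 : j ∈ N' <;>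
      simp only [c1, c2, if_true, if_false, Nat.odd_add_one, add_zero] at b ⊢ <;> tauto
  ext j
  constructor
  · intro hj
    have h1 := Finset.mem_Icc.1 (hN hj)
    rcases h1.2.lt_or_eq with h2 | h2
    · exact (key j h1.1 (by omega)).1 hj
    · rw [h2]; exact hnN'
  · intro hj
    have h1 := Finset.mem_Icc.1 (hN' hj)
    rcases h1.2.lt_or_eq with h2 | h2
    · exact (key j h1.1 (by omega)).2 hj
    · rw [h2]; exact hnN

/-- the weights -/
noncomputable def w (n s : ℕ) : ℝ := Real.cos (s * (2 / n)) - Real.cos ((s + 1 : ℕ) * (2 / n))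

theorem w_sq (n s : ℕ) : w n s ^ 2 ≤ 4 / (n : ℝ) ^ 2 := by
  have h := Real.abs_cos_sub_cos_le (s * (2 / n)) ((s + 1 : ℕ) * (2 / (n : ℝ)))
  have h1 : (s : ℝ) * (2 / n) - (s + 1 : ℕ) * (2 / (n : ℝ)) = -(2 / n) := by push_cast; ring
  rw [h1, abs_neg, abs_of_nonneg (show (0 : ℝ) ≤ 2 / n by positivity)] at h
  have h2 : w n s ^ 2 = |w n s| ^ 2 := (sq_abs _).symm
  rw [h2]
  have h3 : |w n s| ^ 2 ≤ (2 / (n : ℝ)) ^ 2 := by
    apply pow_le_pow_left₀ (abs_nonneg _)
    exact h
  calc |w n s| ^ 2 ≤ (2 / (n : ℝ)) ^ 2 := h3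
    _ = 4 / (n : ℝ) ^ 2 := by ring

theorem cos_two_le : Real.cos 2 ≤ -(31 / 81) := by
  have h : Real.cos 2 = 2 * Real.cos 1 ^ 2 - 1 := by
    have := Real.cos_two_mul 1
    norm_num at this
    exact this
  have h1 := Real.cos_one_le
  have h2 := Real.cos_one_pos
  rw [h]; nlinarith

theorem bad_le (n : ℕ) (hn : 1 ≤ n) (N : Finset ℕ) (hN : N ⊆ Icc 1 n) (hnN : n ∈ N)
    (hbad : ¬ HasSimpleUnitRoot n N) :
    ∑ s ∈ Hs n N, w n s - (1 / 2) * ∑ s ∈ range (n - 1), w n s ≤ -(31 / 162) := by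
  have hD : 0 < D n N (2 / n) := by
    by_contra h
    exact hbad (simple_of_nonpos n hn N hN hnN (not_lt.1 h))
  have h1 : ∑ s ∈ range n, del N s * (Real.cos (s * (2 / n)) - Real.cos ((s + 1 : ℕ) * (2 / n))) =
      ∑ s ∈ Hs n N, w n s + w n (n - 1) := by
    have e : range n = range (n - 1 + 1) := by rw [Nat.sub_add_cancel hn]
    rw [e, Finset.sum_range_succ, del_last n hn N hN hnN, one_mul, Hs, Finset.sum_filter]
    congr 1
    apply Finset.sum_congr rfl
    intro s _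
    unfold del w
    split_ifs <;> simp
  rw [D, h1] at hD
  have h2 : ∑ s ∈ range (n - 1), w n s = 1 - Real.cos ((n - 1 : ℕ) * (2 / n)) := by
    have := Finset.sum_range_sub' (fun s : ℕ => Real.cos (s * (2 / (n : ℝ)))) (n - 1)
    simpa [w] using this
  have h3 : w n (n - 1) = Real.cos ((n - 1 : ℕ) * (2 / n)) - Real.cos 2 := by
    unfold w
    rw [Nat.sub_add_cancel hn]
    congr 2
    have : (n : ℝ) ≠ 0 := by positivity
    field_simp
  have h4 : Real.cos 2 ≤ Real.cos ((n - 1 : ℕ) * (2 / (n : ℝ))) := by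
    apply Real.cos_le_cos_of_nonneg_of_le_pi (by positivity) (by linarith [Real.pi_gt_three])
    have h5 : ((n - 1 : ℕ) : ℝ) ≤ n := by exact_mod_cast Nat.sub_le n 1
    have h6 : (0 : ℝ) < n := by exact_mod_cast hn
    calc ((n - 1 : ℕ) : ℝ) * (2 / n) ≤ n * (2 / n) := mul_le_mul_of_nonneg_right h5 (by positivity)
      _ = 2 := by field_simp
  have h7 := cos_two_le
  rw [h2]
  rw [h3] at hD
  linarith

theorem total_ge (n : ℕ) (hn : 1 ≤ n) :
    2 ^ (n - 1) ≤ {N : Finset ℕ | N ⊆ Icc 1 n ∧ n ∈ N}.ncard := by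
  classical
  have hset : {N : Finset ℕ | N ⊆ Icc 1 n ∧ n ∈ N} =
      (((Icc 1 n).powerset.filter (fun N => n ∈ N) : Finset (Finset ℕ)) : Set (Finset ℕ)) := by
    ext N; simp
  rw [hset, Set.ncard_coe_finset]
  have h1 : 2 ^ (n - 1) = (Icc 1 (n - 1)).powerset.card := by
    rw [Finset.card_powerset, Nat.card_Icc, Nat.add_sub_cancel]
  rw [h1]
  apply Finset.card_le_card_of_injOn (fun N => insert n N)
  · intro N hN
    have hN' := Finset.mem_powerset.1 (Finset.mem_coe.1 hN)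
    simp only [Finset.coe_filter, Set.mem_ofPred_eq, Finset.mem_powerset]
    refine ⟨?_, Finset.mem_insert_self _ _⟩
    intro x hx
    rcases Finset.mem_insert.1 hx with h | h
    · subst h; exact Finset.mem_Icc.2 ⟨hn, le_rfl⟩
    · have := Finset.mem_Icc.1 (hN' h)
      exact Finset.mem_Icc.2 ⟨this.1, by omega⟩
  · intro N hN N' hN' h
    have hN1 := Finset.mem_powerset.1 (Finset.mem_coe.1 hN)
    have hN2 := Finset.mem_powerset.1 (Finset.mem_coe.1 hN')
    have a1 : n ∉ N := fun h => by have := Finset.mem_Icc.1 (hN1 h); omega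
    have a2 : n ∉ N' := fun h => by have := Finset.mem_Icc.1 (hN2 h); omega
    simp only at h
    rw [← Finset.erase_insert a1, h, Finset.erase_insert a2]

/-- **All but an exponentially small proportion of the admissible polynomials have a simple root on
the unit circle.** -/
theorem result (n : ℕ) (hn : 1 ≤ n) :
    ({N : Finset ℕ | N ⊆ Icc 1 n ∧ n ∈ N ∧ ¬ HasSimpleUnitRoot n N}.ncard : ℝ) ≤
      Real.exp (-(n : ℝ) / 55) * ({N : Finset ℕ | N ⊆ Icc 1 n ∧ n ∈ N}.ncard : ℝ) := by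
  classical
  have hset : {N : Finset ℕ | N ⊆ Icc 1 n ∧ n ∈ N ∧ ¬ HasSimpleUnitRoot n N} =
      (((Icc 1 n).powerset.filter (fun N => n ∈ N ∧ ¬ HasSimpleUnitRoot n N) :
        Finset (Finset ℕ)) : Set (Finset ℕ)) := by
    ext N; simp
  rw [hset, Set.ncard_coe_finset]
  set B := (Icc 1 n).powerset.filter (fun N => n ∈ N ∧ ¬ HasSimpleUnitRoot n N) with hB
  have hBm : ∀ N ∈ B, N ⊆ Icc 1 n ∧ n ∈ N ∧ ¬ HasSimpleUnitRoot n N := by
    intro N hN
    have := Finset.mem_filter.1 hN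
    exact ⟨Finset.mem_powerset.1 this.1, this.2⟩
  have hn0 : (0 : ℝ) < n := by exact_mod_cast hn
  set l : ℝ := 31 / 162 * n with hl
  have hl0 : 0 < l := by positivity
  set Z : Finset ℕ → ℝ := fun H => ∑ s ∈ H, w n s - (1 / 2) * ∑ s ∈ range (n - 1), w n s with hZ
  have h1 : (B.card : ℝ) ≤ ∑ N ∈ B, Real.exp (-l * (Z (Hs n N)) - l * (31 / 162)) := by
    rw [Finset.card_eq_sum_ones, Nat.cast_sum]
    apply Finset.sum_le_sum
    intro N hN
    obtain ⟨a, b, c⟩ := hBm N hN
    have h2 : Z (Hs n N) ≤ -(31 / 162) := bad_le n hn N a b c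
    rw [Nat.cast_one, ← Real.exp_zero]
    apply Real.exp_le_exp.2
    nlinarith
  have h2 : ∑ N ∈ B, Real.exp (-l * (Z (Hs n N)) - l * (31 / 162)) ≤
      ∑ H ∈ (range (n - 1)).powerset, Real.exp (-l * Z H - l * (31 / 162)) := by
    have hinj : Set.InjOn (Hs n) (B : Set (Finset ℕ)) := by
      intro N hN N' hN' h
      obtain ⟨a, b, _⟩ := hBm N (Finset.mem_coe.1 hN)
      obtain ⟨a', b', _⟩ := hBm N' (Finset.mem_coe.1 hN')
      exact Hs_inj n hn N N' a b a' b' h
    rw [← Finset.sum_image (f := fun H => Real.exp (-l * Z H - l * (31 / 162))) hinj]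
    apply Finset.sum_le_sum_of_subset_of_nonneg
    · intro H hH
      obtain ⟨N, _, rfl⟩ := Finset.mem_image.1 hH
      exact Finset.mem_powerset.2 (Finset.filter_subset _ _)
    · intro H _ _; positivity
  have h3 : ∑ H ∈ (range (n - 1)).powerset, Real.exp (-l * Z H - l * (31 / 162)) =
      Real.exp (-(l * (31 / 162))) * ∑ H ∈ (range (n - 1)).powerset, Real.exp (-l * Z H) := by
    rw [Finset.mul_sum]
    apply Finset.sum_congr rfl
    intro H _
    rw [← Real.exp_add]; congr 1; ring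
  have h4 := mgf_le (n - 1) (w n) l (4 / (n : ℝ) ^ 2) (fun s _ => w_sq n s)
  have h5 : (2 : ℝ) ^ (n - 1) ≤ ({N : Finset ℕ | N ⊆ Icc 1 n ∧ n ∈ N}.ncard : ℝ) := by
    exact_mod_cast total_ge n hn
  have h6 : Real.exp (-(l * (31 / 162))) * Real.exp ((n - 1 : ℕ) * (l ^ 2 * (4 / (n : ℝ) ^ 2) / 8)) ≤
      Real.exp (-(n : ℝ) / 55) := by
    rw [← Real.exp_add]
    apply Real.exp_le_exp.2
    have e1 : l ^ 2 * (4 / (n : ℝ) ^ 2) / 8 = (31 / 162) ^ 2 / 2 := by
      rw [hl]; field_simp; norm_num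
    rw [e1, hl]
    have h7 : ((n - 1 : ℕ) : ℝ) ≤ n := by exact_mod_cast Nat.sub_le n 1
    nlinarith
  calc (B.card : ℝ) ≤ Real.exp (-(l * (31 / 162))) *
        ∑ H ∈ (range (n - 1)).powerset, Real.exp (-l * Z H) := by
        rw [← h3]; exact h1.trans h2
    _ ≤ Real.exp (-(l * (31 / 162))) *
        (2 ^ (n - 1) * Real.exp ((n - 1 : ℕ) * (l ^ 2 * (4 / (n : ℝ) ^ 2) / 8))) :=
        mul_le_mul_of_nonneg_left h4 (Real.exp_pos _).le
    _ = (Real.exp (-(l * (31 / 162))) * Real.exp ((n - 1 : ℕ) * (l ^ 2 * (4 / (n : ℝ) ^ 2) / 8))) *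
        2 ^ (n - 1) := by ring
    _ ≤ Real.exp (-(n : ℝ) / 55) * 2 ^ (n - 1) := mul_le_mul_of_nonneg_right h6 (by positivity)
    _ ≤ Real.exp (-(n : ℝ) / 55) * ({N : Finset ℕ | N ⊆ Icc 1 n ∧ n ∈ N}.ncard : ℝ) :=
        mul_le_mul_of_nonneg_left h5 (Real.exp_pos _).le

end Pool.Agent.Results.MP_dfec22_gt.AllButExpFew
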