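import Pool.Agent.Helper82_Alex.Cable

/-!
# Alexander polynomials of cables have a simple root on the unit circle
-/

set_option autoImplicit false

namespace Pool.Agent.Results.MP_dfec22_gt.CablePolynomial

open Pool.Agent.Helper82_Alex Polynomial

/-- If `D (X^p - 1) (X^q - 1) = A(X^p) (X^(pq) - 1) (X - 1)` in `ℤ[X]` with `p, q ≥ 2` coprime and
`A(1) = ±1`, then `D` has a simple root on the unit circle. -/
theorem result : ∀ (p q : ℕ), 2 ≤ p → 2 ≤ q → p.Coprime q → ∀ A D : ℤ[X],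
    IsUnit (A.eval 1) →
    D * ((X ^ p - 1) * (X ^ q - 1)) = A.comp (X ^ p) * ((X ^ (p * q) - 1) * (X - 1)) →
    ∃ ζ : ℂ, ‖ζ‖ = 1 ∧ (D.map (Int.castRingHom ℂ)).rootMultiplicity ζ = 1 :=
  fun p q hp hq hpq A D hA hD => cable_simple p q hp hq hpq A D hA hD

end Pool.Agent.Results.MP_dfec22_gt.CablePolynomial
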