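import Pool.Agent.Helper82_Alex.Simple

/-!
# Admissible polynomials whose top exponent is at least the sum of the others
-/

set_option autoImplicit false

namespace Pool.Agent.Results.MP_dfec22_gt.DominantTop

open Pool.Agent.Helper82_Alex

/-- If the exponents `0 < n 0 < ... < n k` of an admissible Laurent polynomial satisfy
`n 0 + ... + n (k-1) ≤ n k`, then it has a simple root on the unit circle. -/
theorem result : ∀ (k : ℕ) (n : Fin (k + 1) → ℕ), StrictMono n → 0 < n 0 →
    ∑ j : Fin k, n j.castSucc ≤ n (Fin.last k) →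
    ∃ ζ : ℂ, ‖ζ‖ = 1 ∧ (alexPoly n).rootMultiplicity ζ = 1 :=
  fun _ n hn h0 hS => exists_simple n hn h0 hS

end Pool.Agent.Results.MP_dfec22_gt.DominantTop
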