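import Pool.Agent.Helper82_Alex.Criterion

/-!
# A coefficient criterion for a simple unit-circle root
-/

set_option autoImplicit false

namespace Pool.Agent.Results.MP_dfec22_gt.MultiplierCriterion

open Pool.Agent.Helper82_Alex Polynomial Finset

/-- Let `P = T^(n k) Δ(T)` for an admissible `Δ`. If some multiple `F = P * H`, of degree `d`,
satisfies `∑_{i<d} |F_i| |2i - d| i < |F_d| d^2`, then `Δ` has a simple root on the unit
circle. -/
theorem result : ∀ (k : ℕ) (n : Fin (k + 1) → ℕ), StrictMono n → 0 < n 0 → ∀ H : ℂ[X],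
    ∑ i ∈ range (alexPoly n * H).natDegree, ‖(alexPoly n * H).coeff i‖ *
        |2 * (i : ℝ) - (alexPoly n * H).natDegree| * i <
      ‖(alexPoly n * H).coeff (alexPoly n * H).natDegree‖ *
        ((alexPoly n * H).natDegree : ℝ) ^ 2 →
    ∃ ζ : ℂ, ‖ζ‖ = 1 ∧ (alexPoly n).rootMultiplicity ζ = 1 :=
  fun _ n hn h0 H hH => criterion n hn h0 H hH

end Pool.Agent.Results.MP_dfec22_gt.MultiplierCriterion
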