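import Mathlib

open Polynomial Finset

namespace Pool.Agent.Results.MP_dfec22_gt.OddMultCount


/-- reflection in the unit circle -/
noncomputable def sg (z : ℂ) : ℂ := (starRingEnd ℂ z)⁻¹

lemma sg_sg (z : ℂ) : sg (sg z) = z := by simp [sg]

lemma mul_conj_one {z : ℂ} (h : ‖z‖ = 1) : z * starRingEnd ℂ z = 1 := by
  rw [Complex.mul_conj, Complex.normSq_eq_norm_sq, h]; simp

lemma sg_unit {z : ℂ} (h : ‖z‖ = 1) : sg z = z := by
  have h1 := mul_conj_one h
  unfold sg
  exact (eq_inv_of_mul_eq_one_left h1).symm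

lemma norm_of_sg {z : ℂ} (h : sg z = z) (hz : z ≠ 0) : ‖z‖ = 1 := by
  have hc : starRingEnd ℂ z ≠ 0 := by simpa using hz
  have h1 : z * starRingEnd ℂ z = 1 := by
    nth_rw 1 [← h]; unfold sg; exact inv_mul_cancel₀ hc
  rw [Complex.mul_conj, Complex.normSq_eq_norm_sq] at h1
  have h2 : ‖z‖^2 = 1 := by exact_mod_cast h1
  nlinarith [norm_nonneg z]

lemma sg_ne {z : ℂ} (hz : z ≠ 0) : sg z ≠ 0 := by
  unfold sg; simpa using hz

lemma pair {x z : ℂ} (hx : ‖x‖ = 1) (hz : z ≠ 0) :
    (x - z) * (x - sg z) = -(sg z) * x * ((‖x - z‖^2 : ℝ) : ℂ) := by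
  have h1 := mul_conj_one hx
  have hc : starRingEnd ℂ z ≠ 0 := by simpa using hz
  have h2 : ((‖x - z‖^2 : ℝ) : ℂ) = (x - z) * (starRingEnd ℂ x - starRingEnd ℂ z) := by
    rw [← map_sub, Complex.mul_conj, Complex.normSq_eq_norm_sq]
  rw [h2]
  unfold sg
  field_simp
  linear_combination (x - z) * h1

lemma key (s : Multiset ℂ) :
    0 ∉ s → (∀ z, z ≠ 0 → s.count (sg z) = s.count z) → (∀ z, ‖z‖ = 1 → Even (s.count z)) →
    ∃ (κ : ℂ) (N : ℕ), κ ≠ 0 ∧ Multiset.card s = 2 * N ∧
      ∀ x : ℂ, ‖x‖ = 1 → ∃ h : ℝ, 0 ≤ h ∧ (s.map (fun z => x - z)).prod = κ * x^N * h := by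
  induction' hc : Multiset.card s using Nat.strong_induction_on with c ih generalizing s
  intro h0 hs he
  rcases Multiset.empty_or_exists_mem s with rfl | ⟨z, hz⟩
  · refine ⟨1, 0, one_ne_zero, by simpa using hc.symm, fun x _ => ⟨1, by norm_num, by simp⟩⟩
  · have hz0 : z ≠ 0 := fun h => h0 (h ▸ hz)
    obtain ⟨t, rfl⟩ := Multiset.exists_cons_of_mem hz
    have hsz : sg z ∈ t := by
      by_cases hu : sg z = z
      · rw [hu]
        have hn := norm_of_sg hu hz0
        have := he z hn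
        rw [Multiset.count_cons_self] at this
        rw [← Multiset.count_pos]
        rcases Nat.eq_zero_or_pos (t.count z) with h | h
        · rw [h] at this; exact absurd this (by decide)
        · exact h
      · have := hs z hz0
        rw [Multiset.count_cons_self, Multiset.count_cons_of_ne hu] at this
        rw [← Multiset.count_pos]; omega
    obtain ⟨r, rfl⟩ := Multiset.exists_cons_of_mem hsz
    have hcr : Multiset.card r + 2 = c := by simpa using hc
    obtain ⟨κ, N, hκ, hN, hx⟩ := ih (Multiset.card r) (by omega) r rfl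
      (fun h => h0 (by simp [h]))
      (by
        intro y hy
        have := hs y hy
        simp only [Multiset.count_cons] at this
        have e1 : (sg y = z) ↔ (y = sg z) := ⟨fun h => by rw [← h, sg_sg], fun h => by rw [h, sg_sg]⟩
        have e2 : (sg y = sg z) ↔ (y = z) := ⟨fun h => by rw [← sg_sg y, h, sg_sg], fun h => by rw [h]⟩
        simp only [e1, e2] at this
        omega)
      (by
        intro y hy
        have := he y hy
        simp only [Multiset.count_cons] at this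
        have e1 : (y = sg z) ↔ (y = z) := by
          constructor
          · intro h
            have : sg y = sg (sg z) := by rw [h]
            rw [sg_sg, sg_unit hy] at this
            exact this
          · intro h
            rw [← h, sg_unit hy]
        simp only [e1] at this
        split_ifs at this
        · rw [Nat.even_iff] at this ⊢; omega
        · simpa using this)
    refine ⟨-(sg z) * κ, N + 1, mul_ne_zero (neg_ne_zero.mpr (sg_ne hz0)) hκ, by omega, ?_⟩
    intro x hxn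
    obtain ⟨h, hh, hp⟩ := hx x hxn
    refine ⟨‖x - z‖^2 * h, by positivity, ?_⟩
    rw [Multiset.map_cons, Multiset.prod_cons, Multiset.map_cons, Multiset.prod_cons, hp, ← mul_assoc,
      pair hxn hz0]
    push_cast
    ring



/-- The ordinary polynomial `T^(n k) * Δ(T)`, over the integers. -/
noncomputable def ordPoly (k : ℕ) (n : ℕ → ℕ) : ℤ[X] :=
  C ((-1 : ℤ)^k) * X^(n k) +
    ∑ j ∈ Finset.Icc 1 k, C ((-1 : ℤ)^(k-j)) * (X^(n k + n j) + X^(n k - n j))

lemma coeff_ord (k : ℕ) (n : ℕ → ℕ) (i : ℕ) : (ordPoly k n).coeff i =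
    (if i = n k then (-1)^k else 0) + ∑ j ∈ Finset.Icc 1 k, (-1)^(k-j) *
      ((if i = n k + n j then 1 else 0) + (if i = n k - n j then 1 else 0)) := by
  unfold ordPoly
  rw [coeff_add, coeff_C_mul, coeff_X_pow, finsetSum_coeff]
  congr 1
  · split_ifs <;> simp
  · apply Finset.sum_congr rfl
    intro j _
    rw [coeff_C_mul, coeff_add, coeff_X_pow, coeff_X_pow]

section
variable {k : ℕ} {n : ℕ → ℕ} (hk : 1 ≤ k) (h0 : n 0 = 0)
  (hn : ∀ i j, i < j → j ≤ k → n i < n j)
include hk h0 hn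

lemma n_pos {j : ℕ} (hj : 1 ≤ j) (hjk : j ≤ k) : n 1 ≤ n j ∧ 0 < n 1 ∧ n j ≤ n k := by
  have a := hn 0 1 (by norm_num) hk
  refine ⟨?_, by omega, ?_⟩
  · rcases Nat.lt_or_ge 1 j with h | h
    · exact (hn 1 j h hjk).le
    · have : j = 1 := by omega
      rw [this]
  · rcases Nat.lt_or_ge j k with h | h
    · exact (hn j k h le_rfl).le
    · have : j = k := by omega
      rw [this]

lemma coeff_mid {M i : ℕ} (hM : M < n 1) (h1 : n k ≤ i + M) (h2 : i ≤ n k + M) :
    (ordPoly k n).coeff i = if i = n k then (-1)^k else 0 := by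
  rw [coeff_ord, Finset.sum_eq_zero, add_zero]
  intro j hj
  rw [Finset.mem_Icc] at hj
  obtain ⟨a, b, c⟩ := n_pos hk h0 hn hj.1 hj.2
  rw [if_neg (by omega), if_neg (by omega)]
  simp

lemma pen {j : ℕ} (hj : j < k) : n j ≤ n (k-1) := by
  rcases Nat.lt_or_ge j (k-1) with h | h
  · exact (hn j (k-1) h (by omega)).le
  · have : j = k-1 := by omega
    rw [this]

lemma coeff_low {M i : ℕ} (hM : M < n k - n (k-1)) (h1 : i ≤ M) :
    (ordPoly k n).coeff i = if i = 0 then 1 else 0 := by
  rw [coeff_ord, Finset.sum_eq_single k]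
  · have := pen hk h0 hn (j := 0) (by omega)
    have h3 := n_pos hk h0 hn (le_refl 1) hk
    rw [if_neg (by omega), if_neg (by omega)]
    simp
  · intro j hj hjk
    rw [Finset.mem_Icc] at hj
    have := pen hk h0 hn (j := j) (by omega)
    have h3 := n_pos hk h0 hn (le_refl 1) hk
    rw [if_neg (by omega), if_neg (by omega)]
    simp
  · intro h; exact absurd (Finset.mem_Icc.mpr ⟨hk, le_rfl⟩) h

lemma coeff_sym {i : ℕ} (hi : i ≤ 2 * n k) :
    (ordPoly k n).coeff (2 * n k - i) = (ordPoly k n).coeff i := by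
  rw [coeff_ord, coeff_ord]
  congr 1
  · have : (2 * n k - i = n k) ↔ (i = n k) := by omega
    simp only [this]
  · apply Finset.sum_congr rfl
    intro j hj
    rw [Finset.mem_Icc] at hj
    obtain ⟨a, b, c⟩ := n_pos hk h0 hn hj.1 hj.2
    have e1 : (2 * n k - i = n k + n j) ↔ (i = n k - n j) := by omega
    have e2 : (2 * n k - i = n k - n j) ↔ (i = n k + n j) := by omega
    simp only [e1, e2]
    ring

lemma coeff_big {i : ℕ} (hi : 2 * n k < i) : (ordPoly k n).coeff i = 0 := by
  rw [coeff_ord, if_neg (by omega), Finset.sum_eq_zero, add_zero]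
  intro j hj
  rw [Finset.mem_Icc] at hj
  obtain ⟨a, b, c⟩ := n_pos hk h0 hn hj.1 hj.2
  rw [if_neg (by omega), if_neg (by omega)]
  simp

lemma coeff_high {M i : ℕ} (hM : M < n k - n (k-1)) (h1 : 2 * n k ≤ i + M) :
    (ordPoly k n).coeff i = if i = 2 * n k then 1 else 0 := by
  rcases Nat.lt_or_ge (2 * n k) i with h | h
  · rw [coeff_big hk h0 hn h, if_neg (by omega)]
  · rw [← coeff_sym hk h0 hn h, coeff_low hk h0 hn hM (by omega)]
    have : (2 * n k - i = 0) ↔ (i = 2 * n k) := by omega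
    simp only [this]

lemma coeff_top : (ordPoly k n).coeff (2 * n k) = 1 := by
  have h3 := hn (k-1) k (by omega) le_rfl
  rw [coeff_high hk h0 hn (M := 0) (by omega) (by omega), if_pos rfl]

lemma natDeg : (ordPoly k n).natDegree = 2 * n k := by
  apply le_antisymm
  · rw [natDegree_le_iff_coeff_eq_zero]
    intro N hN
    exact coeff_big hk h0 hn hN
  · apply le_natDegree_of_ne_zero
    rw [coeff_top hk h0 hn]; exact one_ne_zero

lemma monicP : (ordPoly k n).Monic := by
  rw [Monic, leadingCoeff, natDeg hk h0 hn, coeff_top hk h0 hn]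

lemma coeff_zero' : (ordPoly k n).coeff 0 = 1 := by
  have h3 := hn (k-1) k (by omega) le_rfl
  rw [coeff_low hk h0 hn (M := 0) (by omega) (by omega), if_pos rfl]

lemma rev : (ordPoly k n).reverse = ordPoly k n := by
  ext i
  rw [coeff_reverse, natDeg hk h0 hn]
  rcases Nat.lt_or_ge (2 * n k) i with h | h
  · rw [revAt_eq_self_of_lt h]
  · rw [revAt_le h, coeff_sym hk h0 hn h]

lemma eval_one_odd : Odd ((ordPoly k n).eval 1) := by
  unfold ordPoly
  simp only [eval_add, eval_mul, eval_C, eval_pow, eval_X, one_pow, mul_one, eval_finsetSum]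
  apply Odd.add_even
  · exact Odd.pow (by decide)
  · rw [← Finset.sum_mul]
    exact Even.mul_left (by decide) _
end

/-- `T^(n k) * Δ(T)` over the complex numbers. -/
noncomputable def cP (k : ℕ) (n : ℕ → ℕ) : ℂ[X] := (ordPoly k n).map (Int.castRingHom ℂ)

lemma cP_conj (k : ℕ) (n : ℕ → ℕ) : (cP k n).map (starRingEnd ℂ) = cP k n := by
  unfold cP
  rw [Polynomial.map_map]
  congr 1
  exact Subsingleton.elim _ _

lemma mult_conj (k : ℕ) (n : ℕ → ℕ) (z : ℂ) :
    (cP k n).rootMultiplicity (starRingEnd ℂ z) = (cP k n).rootMultiplicity z := by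
  conv_rhs => rw [eq_rootMultiplicity_map (f := starRingEnd ℂ) (RingHom.injective _) z, cP_conj]

section
variable {k : ℕ} {n : ℕ → ℕ} (hk : 1 ≤ k) (h0 : n 0 = 0)
  (hn : ∀ i j, i < j → j ≤ k → n i < n j)
include hk h0 hn

lemma cP_monic : (cP k n).Monic := (monicP hk h0 hn).map _

lemma cP_natDeg : (cP k n).natDegree = 2 * n k := by
  unfold cP
  rw [natDegree_map_eq_of_injective (RingHom.injective_int _), natDeg hk h0 hn]

lemma cP_rev : (cP k n).reverse = cP k n := by
  ext i
  rw [coeff_reverse, cP_natDeg hk h0 hn]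
  unfold cP
  rw [coeff_map, coeff_map]
  congr 1
  have := congrArg (fun p => p.coeff i) (rev hk h0 hn)
  simp only [coeff_reverse, natDeg hk h0 hn] at this
  exact this

lemma mult_inv_le {z : ℂ} (hz : z ≠ 0) :
    (cP k n).rootMultiplicity z ≤ (cP k n).rootMultiplicity z⁻¹ := by
  have hP : cP k n ≠ 0 := (cP_monic hk h0 hn).ne_zero
  rw [le_rootMultiplicity_iff hP]
  obtain ⟨q, hq⟩ := pow_rootMultiplicity_dvd (cP k n) z
  set m := (cP k n).rootMultiplicity z
  have h1 : (cP k n) = ((X - C z)^m).reverse * q.reverse := by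
    rw [← reverse_mul_of_domain, ← hq, cP_rev hk h0 hn]
  have h2 : ∀ m : ℕ, ((X - C z : ℂ[X])^m).reverse = (C (-z) * (X - C z⁻¹))^m := by
    intro m
    induction m with
    | zero => simpa using reverse_C (1:ℂ)
    | succ m ih =>
      rw [pow_succ, reverse_mul_of_domain, ih, pow_succ]
      congr 1
      have : (X - C z : ℂ[X]) = C 1 * X + C (-z) := by simp [sub_eq_add_neg]
      rw [this]
      have h4 : (C (1:ℂ) * X + C (-z)).natDegree = 1 := natDegree_linear one_ne_zero
      ext i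
      rw [coeff_reverse, h4]
      rcases i with _ | _ | i
      · rw [revAt_le (by norm_num)]
        simp [coeff_C, coeff_X, hz]
      · rw [revAt_le (by norm_num)]
        simp [coeff_C, coeff_X]
      · rw [revAt_eq_self_of_lt (by omega)]
        simp [coeff_C, coeff_X]
  rw [h2, mul_pow] at h1
  rw [h1]
  exact Dvd.dvd.mul_right (Dvd.intro_left _ rfl) _

lemma mult_inv {z : ℂ} (hz : z ≠ 0) :
    (cP k n).rootMultiplicity z⁻¹ = (cP k n).rootMultiplicity z := by
  apply le_antisymm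
  · have := mult_inv_le hk h0 hn (z := z⁻¹) (inv_ne_zero hz)
    rwa [inv_inv] at this
  · exact mult_inv_le hk h0 hn hz

lemma zero_not_root : (cP k n).eval 0 ≠ 0 := by
  rw [← coeff_zero_eq_eval_zero]
  unfold cP
  rw [coeff_map, coeff_zero' hk h0 hn]
  simp

lemma one_not_root : (cP k n).eval 1 ≠ 0 := by
  have h1 := eval_one_odd hk h0 hn
  unfold cP
  have : (1 : ℂ) = Int.castRingHom ℂ 1 := by simp
  rw [this, eval_map_apply]
  intro h
  have : (ordPoly k n).eval 1 = 0 := by
    rw [eq_intCast] at h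
    exact_mod_cast h
  rw [this] at h1
  exact absurd h1 (by decide)

end



lemma sum_pow' {N : ℕ} {ζ : ℂ} (hζ : IsPrimitiveRoot ζ N) (j : ℕ) :
    ∑ m ∈ range N, (ζ^m)^j = if N ∣ j then (N:ℂ) else 0 := by
  have e : ∀ m, (ζ^m)^j = (ζ^j)^m := fun m => by rw [← pow_mul, ← pow_mul, mul_comm]
  simp only [e]
  split_ifs with h
  · rw [(hζ.pow_eq_one_iff_dvd j).mpr h]; simp
  · have h1 : ζ^j ≠ 1 := fun h2 => h ((hζ.pow_eq_one_iff_dvd j).mp h2)
    have h2 := geom_sum_mul (ζ^j) N
    rw [← pow_mul, mul_comm j N, pow_mul, hζ.pow_eq_one, one_pow, sub_self] at h2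
    exact (mul_eq_zero.mp h2).resolve_right (sub_ne_zero.mpr h1)

lemma sum_eval3 {N : ℕ} (hN : 0 < N) {ζ : ℂ} (hζ : IsPrimitiveRoot ζ N) (Q : ℂ[X])
    (hQ : Q.natDegree < 3 * N) :
    ∑ m ∈ range N, Q.eval (ζ^m) = N * (Q.coeff 0 + Q.coeff N + Q.coeff (2*N)) := by
  have e : ∀ m, Q.eval (ζ^m) = ∑ i ∈ range (3*N), Q.coeff i * (ζ^m)^i :=
    fun m => eval_eq_sum_range' hQ _
  simp only [e]
  rw [Finset.sum_comm]
  simp only [← Finset.mul_sum, sum_pow' hζ]
  have e2 : ∀ i, (Q.coeff i * if N ∣ i then (N:ℂ) else 0) = if N ∣ i then Q.coeff i * N else 0 :=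
    fun i => by split_ifs <;> simp
  simp only [e2]
  rw [← Finset.sum_filter]
  have e3 : (range (3*N)).filter (fun i => N ∣ i) = {0, N, 2*N} := by
    ext i
    simp only [Finset.mem_filter, Finset.mem_range, Finset.mem_insert, Finset.mem_singleton]
    constructor
    · rintro ⟨h1, q, rfl⟩
      have : q < 3 := by
        rw [mul_comm N q] at h1
        exact Nat.lt_of_mul_lt_mul_right h1
      interval_cases q
      · left; ring
      · right; left; ring
      · right; right; ring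
    · rintro (rfl | rfl | rfl)
      · exact ⟨by omega, dvd_zero _⟩
      · exact ⟨by omega, dvd_refl _⟩
      · exact ⟨by omega, Dvd.intro_left _ rfl⟩
  rw [e3, Finset.sum_insert, Finset.sum_insert, Finset.sum_singleton]
  · ring
  · simp only [Finset.mem_singleton]; omega
  · simp only [Finset.mem_insert, Finset.mem_singleton]; omega

/-- the analytic contradiction -/
lemma contra {g M : ℕ} (hg : 0 < g) (hMg : M < g) (R : ℂ[X]) (hR : R.natDegree ≤ 2*g + 2*M)
    (ω : ℂ) (ε : ℂ) (hε : ε * ε = 1)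
    (hmid : R.coeff (g+M) = ε * ω) (hlow : R.coeff M = ω) (hhigh : R.coeff (2*g+M) = ω)
    (κ : ℂ) (hκ : κ ≠ 0) (h1 : R.eval 1 ≠ 0)
    (hx : ∀ x : ℂ, ‖x‖ = 1 → ∃ h : ℝ, 0 ≤ h ∧ R.eval x = κ * x^(g+M) * h) : False := by
  have hζ := Complex.isPrimitiveRoot_exp (2*g) (by omega)
  set ζ := Complex.exp (2 * Real.pi * Complex.I / (2*g : ℕ)) with hζdef
  have hnorm : ∀ m : ℕ, ‖ζ^m‖ = 1 := fun m => by
    rw [norm_pow, Complex.norm_eq_one_of_pow_eq_one hζ.pow_eq_one (by omega), one_pow]
  choose h hh0 hh using fun m : ℕ => hx (ζ^m) (hnorm m)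
  have hp : ∀ m : ℕ, (ζ^m)^(2*g) = 1 := fun m => by
    rw [← pow_mul, mul_comm, pow_mul, hζ.pow_eq_one, one_pow]
  -- first sum
  have s1 := sum_eval3 (by omega) hζ (R * X^(g-M))
    (lt_of_le_of_lt natDegree_mul_le (by rw [natDegree_X_pow]; omega))
  have s2 := sum_eval3 (by omega) hζ (R * X^(2*g-M))
    (lt_of_le_of_lt natDegree_mul_le (by rw [natDegree_X_pow]; omega))
  have c1 : (R * X^(g-M)).coeff 0 = 0 := by
    rw [coeff_mul_X_pow', if_neg (by omega)]
  have c2 : (R * X^(g-M)).coeff (2*g) = ε * ω := by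
    rw [coeff_mul_X_pow', if_pos (by omega), ← hmid]; congr 1; omega
  have c3 : (R * X^(g-M)).coeff (2*(2*g)) = 0 := by
    rw [coeff_mul_X_pow', if_pos (by omega)]
    exact coeff_eq_zero_of_natDegree_lt (by omega)
  have d1 : (R * X^(2*g-M)).coeff 0 = 0 := by
    rw [coeff_mul_X_pow', if_neg (by omega)]
  have d2 : (R * X^(2*g-M)).coeff (2*g) = ω := by
    rw [coeff_mul_X_pow', if_pos (by omega), ← hlow]; congr 1; omega
  have d3 : (R * X^(2*g-M)).coeff (2*(2*g)) = ω := by
    rw [coeff_mul_X_pow', if_pos (by omega), ← hhigh]; congr 1; omega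
  rw [c1, c2, c3] at s1
  rw [d1, d2, d3] at s2
  have t1 : ∀ m, (R * X^(g-M)).eval (ζ^m) = κ * (h m : ℂ) := fun m => by
    rw [eval_mul, eval_pow, eval_X, hh m]
    have : (ζ^m)^(g+M) * (ζ^m)^(g-M) = 1 := by
      rw [← pow_add, ← hp m]; congr 1; omega
    linear_combination (κ * h m) * this
  have t2 : ∀ m, (R * X^(2*g-M)).eval (ζ^m) = κ * ((ζ^m)^g * (h m : ℂ)) := fun m => by
    rw [eval_mul, eval_pow, eval_X, hh m]
    have : (ζ^m)^(g+M) * (ζ^m)^(2*g-M) = (ζ^m)^g := by
      rw [← pow_add, ← one_mul ((ζ^m)^g), ← hp m, ← pow_add]; congr 1; omega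
    linear_combination (κ * h m) * this
  simp only [t1, ← Finset.mul_sum] at s1
  simp only [t2, ← Finset.mul_sum] at s2
  set u : ℝ := ∑ m ∈ range (2*g), h m with hu
  have hu' : (∑ m ∈ range (2*g), (h m : ℂ)) = (u : ℂ) := by rw [hu]; push_cast; rfl
  rw [hu'] at s1
  set v : ℂ := ∑ m ∈ range (2*g), (ζ^m)^g * (h m : ℂ) with hv
  have hv1 : ‖v‖ ≤ u := by
    rw [hv, hu]
    apply norm_sum_le_of_le
    intro m _
    rw [norm_mul, norm_pow, hnorm m, one_pow, one_mul, Complex.norm_real, Real.norm_eq_abs,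
      abs_of_nonneg (hh0 m)]
  have hv2 : v = 2 * ε * u := by
    apply mul_left_cancel₀ hκ
    have : κ * (2 * ε * (u:ℂ)) = 2 * ε * (κ * u) := by ring
    rw [this, s1, s2]
    linear_combination (-(2 * ((2*g : ℕ) : ℂ) * ω)) * hε
  have hε1 : ‖ε‖ = 1 := by
    have : ‖ε‖ * ‖ε‖ = 1 := by rw [← norm_mul, hε, norm_one]
    nlinarith [norm_nonneg ε]
  have hpos : 0 < u := by
    have : 0 < h 0 := by
      rcases (hh0 0).lt_or_eq with h2 | h2
      · exact h2
      · exfalso
        apply h1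
        have := hh 0
        rw [pow_zero] at this
        rw [this, ← h2]; simp
    exact lt_of_lt_of_le this (Finset.single_le_sum (f := h) (fun m _ => hh0 m)
      (Finset.mem_range.mpr (by omega)))
  rw [hv2, norm_mul, norm_mul, hε1, Complex.norm_real, Real.norm_eq_abs, abs_of_pos hpos] at hv1
  norm_num at hv1
  linarith


open Classical in
/-- the unit-circle roots of odd multiplicity, as a finset -/
noncomputable def oddRoots (k : ℕ) (n : ℕ → ℕ) : Finset ℂ :=
  (cP k n).roots.toFinset.filter (fun z => ‖z‖ = 1 ∧ Odd ((cP k n).rootMultiplicity z))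

section
variable {k : ℕ} {n : ℕ → ℕ} (hk : 1 ≤ k) (h0 : n 0 = 0)
  (hn : ∀ i j, i < j → j ≤ k → n i < n j)
include hk h0 hn

lemma mem_oddRoots (z : ℂ) :
    z ∈ oddRoots k n ↔ (‖z‖ = 1 ∧ Odd ((cP k n).rootMultiplicity z)) := by
  have hP : cP k n ≠ 0 := (cP_monic hk h0 hn).ne_zero
  unfold oddRoots
  rw [Finset.mem_filter, Multiset.mem_toFinset, mem_roots hP]
  constructor
  · exact fun h => h.2
  · intro h
    refine ⟨(rootMultiplicity_pos hP).mp ?_, h⟩
    exact h.2.pos

lemma coeffs {M : ℕ} (hM1 : M < n 1) (hM2 : M < n k - n (k-1)) (W : ℂ[X])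
    (hWbig : ∀ i, 2 * M < i → W.coeff i = 0) :
    (cP k n * W).coeff (n k + M) = (-1)^k * W.coeff M ∧
    (cP k n * W).coeff M = W.coeff M ∧
    (cP k n * W).coeff (2 * n k + M) = W.coeff M := by
  have hcc : ∀ i, (cP k n).coeff i = ((ordPoly k n).coeff i : ℂ) := fun i => by
    unfold cP; rw [coeff_map]; simp
  refine ⟨?_, ?_, ?_⟩
  · rw [coeff_mul, Finset.sum_eq_single (n k, M)]
    · rw [hcc, coeff_mid hk h0 hn hM1 (by omega) (by omega), if_pos rfl]
      push_cast; ring
    · rintro ⟨a, b⟩ hab hne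
      rw [Finset.HasAntidiagonal.mem_antidiagonal] at hab
      simp only at hab ⊢
      rcases Nat.lt_or_ge (2*M) b with hb | hb
      · rw [hWbig b hb, mul_zero]
      · rw [hcc, coeff_mid hk h0 hn hM1 (by omega) (by omega), if_neg]
        · simp
        · intro ha
          apply hne
          rw [Prod.mk.injEq]; omega
    · intro h
      exact absurd (Finset.HasAntidiagonal.mem_antidiagonal.mpr (by simp)) h
  · rw [coeff_mul, Finset.sum_eq_single (0, M)]
    · rw [hcc, coeff_low hk h0 hn hM2 (by omega), if_pos rfl]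
      push_cast; ring
    · rintro ⟨a, b⟩ hab hne
      rw [Finset.HasAntidiagonal.mem_antidiagonal] at hab
      simp only at hab ⊢
      rw [hcc, coeff_low hk h0 hn hM2 (by omega), if_neg]
      · simp
      · intro ha
        apply hne
        rw [Prod.mk.injEq]; omega
    · intro h
      exact absurd (Finset.HasAntidiagonal.mem_antidiagonal.mpr (by simp)) h
  · rw [coeff_mul, Finset.sum_eq_single (2 * n k, M)]
    · rw [hcc, coeff_high hk h0 hn hM2 (by omega), if_pos rfl]
      push_cast; ring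
    · rintro ⟨a, b⟩ hab hne
      rw [Finset.HasAntidiagonal.mem_antidiagonal] at hab
      simp only at hab ⊢
      rcases Nat.lt_or_ge (2*M) b with hb | hb
      · rw [hWbig b hb, mul_zero]
      · rw [hcc, coeff_high hk h0 hn hM2 (by omega), if_neg]
        · simp
        · intro ha
          apply hne
          rw [Prod.mk.injEq]; omega
    · intro h
      exact absurd (Finset.HasAntidiagonal.mem_antidiagonal.mpr (by simp)) h

lemma exists_form :
    ∃ (κ : ℂ) (M : ℕ), κ ≠ 0 ∧ (oddRoots k n).card = 2 * M ∧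
      ∀ x : ℂ, ‖x‖ = 1 → ∃ h : ℝ, 0 ≤ h ∧
        (cP k n * ∏ z ∈ oddRoots k n, (X - C z)).eval x = κ * x^(n k + M) * h := by
  classical
  have hmon := cP_monic hk h0 hn
  have hP : cP k n ≠ 0 := hmon.ne_zero
  have hAmem := mem_oddRoots hk h0 hn
  generalize oddRoots k n = A at hAmem ⊢
  obtain ⟨s, hs⟩ : ∃ s : Multiset ℂ, s = (cP k n).roots + A.val := ⟨_, rfl⟩
  have hcount : ∀ z, s.count z = (cP k n).rootMultiplicity z +
      (if z ∈ A then 1 else 0) := by
    intro z
    rw [hs, Multiset.count_add, count_roots]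
    by_cases h : z ∈ A
    · rw [if_pos h, Multiset.count_eq_one_of_mem A.nodup h]
    · rw [if_neg h, Multiset.count_eq_zero_of_notMem h]
  have hg : (cP k n).roots.card = 2 * n k := by
    rw [← (IsAlgClosed.splits (cP k n)).natDegree_eq_card_roots, cP_natDeg hk h0 hn]
  have q1 : 0 ∉ s := by
    intro h
    have h1 : 0 < s.count 0 := Multiset.count_pos.mpr h
    rw [hcount, if_neg (by rw [hAmem]; simp)] at h1
    have := (rootMultiplicity_pos hP).mp (by simpa using h1)
    exact zero_not_root hk h0 hn this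
  have q2 : ∀ z, z ≠ 0 → s.count (sg z) = s.count z := by
    intro z hz
    have e1 : (cP k n).rootMultiplicity (sg z) = (cP k n).rootMultiplicity z := by
      unfold sg
      rw [mult_inv hk h0 hn (by simpa using hz), mult_conj]
    have e2 : sg z ∈ A ↔ z ∈ A := by
      constructor
      · intro h
        have h1 := ((hAmem _).mp h).1
        have h2 := sg_unit h1
        rw [sg_sg] at h2
        rw [h2]; exact h
      · intro h
        have h1 := ((hAmem _).mp h).1
        rw [sg_unit h1]; exact h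
    rw [hcount, hcount, e1]
    by_cases h : z ∈ A
    · rw [if_pos h, if_pos (e2.mpr h)]
    · rw [if_neg h, if_neg (fun h' => h (e2.mp h'))]
  have q3 : ∀ z, ‖z‖ = 1 → Even (s.count z) := by
    intro z hz
    rw [hcount]
    split_ifs with h
    · have := ((hAmem _).mp h).2
      exact this.add_one
    · have : ¬ Odd ((cP k n).rootMultiplicity z) := fun h1 => h ((hAmem _).mpr ⟨hz, h1⟩)
      simpa using this
  obtain ⟨κ, N, hκ, hN, hx⟩ := key s q1 q2 q3
  have hcs : s.card = 2 * n k + A.card := by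
    rw [hs, Multiset.card_add, hg, Finset.card_val]
  obtain ⟨M, hM⟩ : ∃ M, N = n k + M := ⟨N - n k, by omega⟩
  refine ⟨κ, M, hκ, by omega, ?_⟩
  intro x hxn
  obtain ⟨h, hh, he⟩ := hx x hxn
  refine ⟨h, hh, ?_⟩
  rw [← hM, ← he, hs, Multiset.map_add, Multiset.prod_add, eval_mul,
    (IsAlgClosed.splits (cP k n)).eval_eq_prod_roots_of_monic hmon, eval_prod,
    Finset.prod_eq_multiset_prod]
  simp only [eval_sub, eval_X, eval_C]

lemma W_one : (∏ z ∈ oddRoots k n, (X - C z)).eval 1 ≠ 0 := by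
  have hP : cP k n ≠ 0 := (cP_monic hk h0 hn).ne_zero
  rw [eval_prod, Finset.prod_ne_zero_iff]
  intro z hz h1
  rw [eval_sub, eval_X, eval_C, sub_eq_zero] at h1
  have h2 := ((mem_oddRoots hk h0 hn z).mp hz).2.pos
  rw [← h1] at h2
  exact one_not_root hk h0 hn ((rootMultiplicity_pos hP).mp h2)

lemma card_odd {D : ℕ} (hD1 : D ≤ n 1) (hD2 : D ≤ n k - n (k-1)) :
    2 * D ≤ (oddRoots k n).card := by
  by_contra hlt
  have hlt' : (oddRoots k n).card < 2 * D := not_le.mp hlt
  obtain ⟨κ, M, hκ, hAM, hx⟩ := exists_form hk h0 hn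
  have hw1 := W_one hk h0 hn
  have hWdeg : (∏ z ∈ oddRoots k n, (X - C z)).natDegree = 2 * M := by
    rw [natDegree_finsetProd_X_sub_C_eq_card (oddRoots k n) (fun z => z), hAM]
  generalize (∏ z ∈ oddRoots k n, (X - C z)) = W at hx hw1 hWdeg
  have hWbig : ∀ i, 2 * M < i → W.coeff i = 0 := fun i hi =>
    coeff_eq_zero_of_natDegree_lt (by omega)
  have hMD : M < D := by omega
  have hg1 := hn (k-1) k (by omega) le_rfl
  have hMg : M < n k := by omega
  obtain ⟨k1, k2, k3⟩ := coeffs hk h0 hn (M := M) (by omega) (by omega) W hWbig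
  have hdeg : (cP k n * W).natDegree ≤ 2 * n k + 2 * M := by
    rw [← hWdeg, ← cP_natDeg hk h0 hn]; exact natDegree_mul_le
  have hgpos : 0 < n k := by omega
  have hsq : ((-1 : ℂ)^k) * (-1)^k = 1 := by rw [← mul_pow]; norm_num
  refine contra hgpos hMg (cP k n * W) hdeg
    (W.coeff M) ((-1)^k) hsq k1 k2 k3 κ hκ ?_ hx
  rw [eval_mul]
  exact mul_ne_zero (one_not_root hk h0 hn) hw1

lemma card_simple {D : ℕ} (hD1 : D ≤ n 1) (hD2 : D ≤ n k - n (k-1)) :
    3 * D ≤ n k + ((oddRoots k n).filter (fun z => (cP k n).rootMultiplicity z = 1)).card := by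
  classical
  have h1 := card_odd hk h0 hn hD1 hD2
  have hP : cP k n ≠ 0 := (cP_monic hk h0 hn).ne_zero
  have hg : (cP k n).roots.card = 2 * n k := by
    rw [← (IsAlgClosed.splits (cP k n)).natDegree_eq_card_roots, cP_natDeg hk h0 hn]
  set A := oddRoots k n with hA
  have h2 : ∑ z ∈ A, (cP k n).rootMultiplicity z ≤ 2 * n k := by
    rw [← hg, ← Multiset.toFinset_sum_count_eq]
    simp only [count_roots]
    apply Finset.sum_le_sum_of_subset
    intro z hz
    rw [hA] at hz
    unfold oddRoots at hz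
    exact (Finset.mem_filter.mp hz).1
  have h3 : ∑ z ∈ A, 3 ≤ ∑ z ∈ A, ((cP k n).rootMultiplicity z +
      2 * (if (cP k n).rootMultiplicity z = 1 then 1 else 0)) := by
    apply Finset.sum_le_sum
    intro z hz
    have := ((mem_oddRoots hk h0 hn z).mp hz).2
    obtain ⟨r, hr⟩ := this
    split_ifs <;> omega
  rw [Finset.sum_add_distrib, ← Finset.mul_sum, ← Finset.card_filter, Finset.sum_const,
    smul_eq_mul] at h3
  omega

end


/-- For an admissible Laurent polynomial with exponents `0 < n 1 < ... < n k` (and `n 0 = 0`) and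
`D = min (n 1) (n k - n (k-1))`: there is a finite set `S` of unit-circle roots of odd
multiplicity with at least `2 D` elements, at least `3 D - n k` of which are simple; so if
`n k < 3 D` there is a simple root on the unit circle. -/
theorem result (k : ℕ) (hk : 1 ≤ k) (n : ℕ → ℕ) (h0 : n 0 = 0)
    (hn : ∀ i j, i < j → j ≤ k → n i < n j) :
    (∃ S : Finset ℂ, (∀ ζ ∈ S, ‖ζ‖ = 1 ∧ Odd ((cP k n).rootMultiplicity ζ)) ∧
      2 * min (n 1) (n k - n (k-1)) ≤ S.card ∧
      3 * min (n 1) (n k - n (k-1)) ≤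
        n k + (S.filter (fun ζ => (cP k n).rootMultiplicity ζ = 1)).card) ∧
    (n k < 3 * min (n 1) (n k - n (k-1)) →
      ∃ ζ : ℂ, ‖ζ‖ = 1 ∧ (cP k n).rootMultiplicity ζ = 1) := by
  have h1 := card_odd hk h0 hn (min_le_left (n 1) (n k - n (k-1)))
    (min_le_right (n 1) (n k - n (k-1)))
  have h2 := card_simple hk h0 hn (min_le_left (n 1) (n k - n (k-1)))
    (min_le_right (n 1) (n k - n (k-1)))
  refine ⟨⟨oddRoots k n, fun ζ hζ => (mem_oddRoots hk h0 hn ζ).mp hζ, h1, h2⟩, ?_⟩
  intro h3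
  have h4 : 0 < ((oddRoots k n).filter (fun z => (cP k n).rootMultiplicity z = 1)).card := by
    omega
  obtain ⟨ζ, hζ⟩ := Finset.card_pos.mp h4
  rw [Finset.mem_filter] at hζ
  exact ⟨ζ, ((mem_oddRoots hk h0 hn ζ).mp hζ.1).1, hζ.2⟩

end Pool.Agent.Results.MP_dfec22_gt.OddMultCount
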