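import Pool.Agent.Helper82_Alex.Odd

/-!
# Every admissible polynomial has a unit-circle root of odd multiplicity
-/

set_option autoImplicit false

namespace Pool.Agent.Results.MP_dfec22_gt.OddRoot

open Pool.Agent.Helper82_Alex

/-- Every admissible Laurent polynomial has a root of odd multiplicity on the unit circle. -/
theorem result : ∀ (k : ℕ) (n : Fin (k + 1) → ℕ), StrictMono n → 0 < n 0 →
    ∃ ζ : ℂ, ‖ζ‖ = 1 ∧ Odd ((alexPoly n).rootMultiplicity ζ) := by
  intro k n hn h0
  obtain ⟨s, -, h⟩ := exists_odd n hn h0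
  exact ⟨_, Complex.norm_exp_ofReal_mul_I s, h⟩

end Pool.Agent.Results.MP_dfec22_gt.OddRoot
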